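import Pool.Agent.TH131.Semi.Main

/-!
# Semisimplicity of `ℓ`-adic cohomology and cubic hypersurfaces
-/

set_option autoImplicit false

open CategoryTheory AlgebraicGeometry

namespace Pool.Agent.Results.MP_b4801b_ag.CubicHypersurfaces

open Pool.Agent.TH90.Cub Pool.Agent.TH590.JH Pool.Agent.TH131.Semi

universe v u

/-- **The semisimplicity conjecture and cubic hypersurfaces.** Let `ℓ` be a prime. The following are
equivalent:

* `H^i(X_{k̄}, ℚ_ℓ)` is a semisimple representation of the absolute Galois group of `k` for all fields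
  `k` finitely generated over `ℚ`, all smooth projective `X` over `k` and all `i`;
* `Gr^W_w H_c^j(C_{\bar ℚ}, ℚ_ℓ)` is a semisimple representation of the absolute Galois group of `ℚ`
  for all hypersurfaces `C` with an equation `g_0 t_0 + ⋯ + g_r t_r = 1` in the affine space over `ℚ`
  with the coordinates `x_1, …, x_n, t_0, …, t_r`, each `g_i` being of the form `x_a x_b - x_c`,
  `x_a + x_b - x_c` or `x_a - 1`, and all `j` and `w`.

If they hold, then `Gr^W_w H_c^i(X_{\bar ℚ}, ℚ_ℓ)` is semisimple for all separated schemes `X` of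
finite type over `ℚ`, all `i` and `w`. The hypersurfaces `C` are smooth over `ℚ`. -/
theorem result (ℓ : ℕ) [Fact ℓ.Prime] {𝓐 : Type u} [Category.{v} 𝓐] [Abelian 𝓐]
    (T : WeightTheory ℚ 𝓐) (𝓦 : Weights T.toTheory)
    (𝓡 : Realization T.toTheory ℓ (Field.absoluteGaloisGroup ℚ)) (𝓥 : Varieties 𝓡) :
    (𝓥.AllSemisimple ↔ CubicsSemisimple 𝓦 𝓡) ∧
    (𝓥.AllSemisimple → SchemesSemisimple 𝓦 𝓡) ∧
    CubicsSmooth ℚ := by
  have h := main_all T 𝓦 𝓡 𝓥
  exact ⟨h.1, h.2, cubicsSmooth ℚ⟩

end Pool.Agent.Results.MP_b4801b_ag.CubicHypersurfaces
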