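import Mathlib
import Pool.Agent.TH116.SS.Main
import Pool.Agent.TH116.SS.Clifford

/-!
# Semisimplicity of the `ℓ`-adic cohomology for ALL `ℓ`, from Frobenius polynomials

Let `X` be a smooth projective variety over a number field `k`, `V = H ^ i (X, ℚ_ℓ)`, `Γ` the Galois
group of `k`, `ω` the form on `V` given by Poincaré duality and the hard Lefschetz theorem, and `χ`
the character through which `Γ` acts on `ω` (the `(-i)`-th power of the cyclotomic character).  Suppose
that `k` has no CM subfield, for example `k = ℚ`, or `k` has a real place, or odd degree.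

For every stable subspace `W` of `V` the character `det W` of `Γ` is Hodge-Tate, hence locally
algebraic; as `k` has no CM subfield it is the product of a power of the cyclotomic character and of
a character of finite order, and by the theorem of Deligne the power is given by the weight.  So
some power of `det (γ | W) ^ 2` is equal to the same power of `χ(γ) ^ dim W`, for all Frobenius elements
`γ`.  This known fact is the hypothesis `CyclotomicDeterminants`.  (It holds for all number fields `k` for the
Frobenius elements for which the field generated by their eigenvalues and the Galois closure of `k`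
have a real intersection, and also over finitely generated fields in which the algebraic closure of
`ℚ` is such a field.)

Theorem.  Suppose that for every `r` with `1 ≤ r ≤ dim V / 2` there is a place of good reduction
for which the characteristic polynomial `P` of the Frobenius element `γ` has no multiple root, and
no set of `r` roots of `P`, of which no two (equal or not) have product `c = χ(γ)`, has product
`c ^ (r / 2)` up to a root of unity.  (One place for all `r` may be used.)  Then `V` is a semisimple
representation of `Γ`, and of all its subgroups of finite index: for ALL `ℓ` different from the residue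
characteristics of these places, without any condition on `ℓ`.

The condition on the products means that there is no exotic relation between the eigenvalues with
exponents zero and one; it holds for instance if one of the Frobenius polynomials has the largest
possible Galois group (any pair of roots `α`, `c / α` can be exchanged while all other roots remain
fixed) and `α ^ 2 / c` is a root of unity only if it is one.  Nothing is assumed about `X`, `i`, the
Hodge numbers or the monodromy.

The starting file RegularFrobenius (under the problem on the conjecture of Grothendieck and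
Serre) proves semisimplicity for a set of primes `ℓ` of positive density, without this hypothesis.
-/

namespace Pool.Agent.Results.MP_b4801b_ag.NoIsotropicRelations

open Module Polynomial

/-- No set of `r` complex roots of `P`, of which no two (equal or not) have product `c`, has the
product `c ^ (r / 2)` up to a root of unity. -/
def NoIsotropicRelation (c : ℚ) (P : ℚ[X]) (r : ℕ) : Prop :=
  ∀ S : Finset ℂ, S.card = r → (∀ x ∈ S, aeval x P = 0) →
    (∀ x ∈ S, ∀ y ∈ S, x * y ≠ c) → ∀ N : ℕ, 0 < N → (∏ x ∈ S, x) ^ (2 * N) ≠ (c : ℂ) ^ (r * N)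

/-- The representation is semisimple as a representation of every subgroup `Δ` of finite index:
every `Δ`-stable subspace has a `Δ`-stable complement. -/
def SemisimpleOnFiniteIndex {k V Γ : Type*} [Field k] [AddCommGroup V] [Module k V] [Group Γ]
    (ρ : Representation k Γ V) : Prop :=
  ∀ Δ : Subgroup Γ, Δ.FiniteIndex → ∀ U : Submodule k V, (∀ s ∈ Δ, ∀ u ∈ U, ρ s u ∈ U) →
    ∃ U' : Submodule k V, (∀ s ∈ Δ, ∀ u ∈ U', ρ s u ∈ U') ∧ IsCompl U U'

/-- For every stable subspace `W` and every `γ` in `F` some power of `det (γ | W) ^ 2` is equal to the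
same power of `χ(γ) ^ dim W`. -/
def CyclotomicDeterminants {k V Γ : Type*} [Field k] [AddCommGroup V] [Module k V] [Group Γ]
    (ρ : Representation k Γ V) (χ : Γ →* k) (F : Set Γ) : Prop :=
  ∀ (W : Submodule k V) (hW : ∀ s, ∀ w ∈ W, ρ s w ∈ W), ∀ γ ∈ F, ∃ N, 0 < N ∧
    (LinearMap.det ((ρ γ).restrict (hW γ))) ^ (2 * N) = χ γ ^ (finrank k W * N)

/-- The form `ω` is nondegenerate, symmetric or alternating, and `Γ` acts on it through the
character `χ`. -/
def IsPolarization {k V Γ : Type*} [Field k] [AddCommGroup V] [Module k V] [Group Γ]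
    (ρ : Representation k Γ V) (χ : Γ →* k) (ω : V →ₗ[k] V →ₗ[k] k) : Prop :=
  (∀ u, (∀ v, ω u v = 0) → u = 0) ∧ ((∀ u v, ω u v = ω v u) ∨ ∀ u v, ω u v = -ω v u) ∧
    ∀ s u v, ω (ρ s u) (ρ s v) = χ s * ω u v

/-- For every `r` with `1 ≤ r ≤ dim V / 2` some element `γ` of `F` has a rational number `c = χ(γ)`
and a rational characteristic polynomial `P` without multiple roots and without isotropic
relations of length `r`. -/
def HasGoodFrobenii {k V Γ : Type*} [Field k] [CharZero k] [AddCommGroup V] [Module k V]
    [FiniteDimensional k V] [Group Γ] (ρ : Representation k Γ V) (χ : Γ →* k) (F : Set Γ) : Prop :=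
  ∀ r, 1 ≤ r → 2 * r ≤ finrank k V → ∃ γ ∈ F, ∃ (c : ℚ) (P : ℚ[X]),
    χ γ = c ∧ (ρ γ).charpoly = P.map (algebraMap ℚ k) ∧ P.Separable ∧ NoIsotropicRelation c P r

theorem result {ℓ : ℕ} [Fact ℓ.Prime] {V Γ : Type} [AddCommGroup V] [Module ℚ_[ℓ] V]
    [FiniteDimensional ℚ_[ℓ] V] [Group Γ] (ρ : Representation ℚ_[ℓ] Γ V) (χ : Γ →* ℚ_[ℓ])
    (ω : V →ₗ[ℚ_[ℓ]] V →ₗ[ℚ_[ℓ]] ℚ_[ℓ]) (hω : IsPolarization ρ χ ω) (F : Set Γ)
    (hdet : CyclotomicDeterminants ρ χ F) (hfrob : HasGoodFrobenii ρ χ F) :
    SemisimpleOnFiniteIndex ρ := by
  obtain ⟨hnondeg, hsymm, hω⟩ := hω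
  intro Δ hΔ U hU
  refine TH116.SS.compl_finiteIndex ρ (fun U hU => ?_) Δ hΔ U hU
  obtain ⟨ε, hε⟩ : ∃ ε : ℚ_[ℓ], ∀ u v, ω u v = ε * ω v u := by
    rcases hsymm with h | h
    · exact ⟨1, fun u v => by rw [one_mul, h]⟩
    · exact ⟨-1, fun u v => by rw [h, neg_one_mul]⟩
  refine TH116.SS.exists_compl (K := AlgebraicClosure ℚ_[ℓ]) ρ χ ω hnondeg hε hω F hdet ?_ U hU
  intro r hr1 hr2
  obtain ⟨γ, hγ, c, P, hc, hP, hsep, hrel⟩ := hfrob r hr1 hr2
  have hP0 : P ≠ 0 := by
    rintro rfl
    rw [Polynomial.map_zero] at hP
    exact (LinearMap.charpoly_monic (ρ γ)).ne_zero hP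
  refine ⟨γ, hγ, ?_, fun S hS hroot hiso N hN => ?_⟩
  · rw [hP]
    exact hsep.map
  · have e1 : algebraMap ℚ_[ℓ] (AlgebraicClosure ℚ_[ℓ]) (χ γ) =
        algebraMap ℚ (AlgebraicClosure ℚ_[ℓ]) c := by
      rw [hc, map_ratCast, eq_ratCast]
    have e2 : (ρ γ).charpoly.map (algebraMap ℚ_[ℓ] (AlgebraicClosure ℚ_[ℓ])) =
        P.map (algebraMap ℚ (AlgebraicClosure ℚ_[ℓ])) := by
      rw [hP, Polynomial.map_map]
      congr 1
    rw [e2] at hroot
    rw [e1] at hiso ⊢
    exact TH116.SS.transfer hP0 hrel S hS hroot hiso N hN

end Pool.Agent.Results.MP_b4801b_ag.NoIsotropicRelations
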