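import Pool.Agent.TH943.TP.Lat

/-!
Semisimplicity of the Galois action on the `p`-adic cohomology of the surfaces
`v ^ (p ^ s) = (x - h(t)) ^ b f(x) ^ c` over finitely generated fields of characteristic zero.
-/

set_option autoImplicit false
set_option maxHeartbeats 1000000

open Polynomial

namespace Pool.Agent.Results.MP_b4801b_ag.PermutationLattices

section roots

variable {k : Type} [Field k]

/-- The set `R` of the roots of `f(h(t))` in the algebraic closure of `k`. -/
abbrev Roots (f h : k[X]) : Type := (f.comp h).rootSet (AlgebraicClosure k)

/-- The image of a root under an element of the Galois group. -/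
noncomputable def move (f h : k[X]) (σ : Gal(AlgebraicClosure k/k)) (r : Roots f h) :
    Roots f h :=
  ⟨σ r.1, by
    have h1 := r.2
    rw [mem_rootSet'] at h1 ⊢
    refine ⟨h1.1, ?_⟩
    have h2 : aeval (σ r.1) (f.comp h) = σ (aeval r.1 (f.comp h)) :=
      aeval_algHom_apply (σ : AlgebraicClosure k →ₐ[k] AlgebraicClosure k) r.1 _
    rw [h2, h1.2, map_zero]⟩

/-- The root `h(r)` of `f` below the root `r` of `f(h(t))`. -/
noncomputable def below (f h : k[X]) (r : Roots f h) : AlgebraicClosure k := aeval r.1 h

open Classical in
/-- The roots of `f(h(t))` with the same image as `r`. -/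
noncomputable def fibre (f h : k[X]) (r : Roots f h) : Finset (Roots f h) :=
  Finset.univ.filter fun r' => below f h r' = below f h r

/-- `f(h(t))` has no multiple roots, the degree of `h` is not divisible by `p`, the Galois group is
transitive on the ordered pairs of different roots with the same image under `h`, and it contains
an element which exchanges two such roots and fixes all other roots. -/
structure IsLarge (p : ℕ) (f h : k[X]) : Prop where
  separable : (f.comp h).Separable
  degree : ¬ p ∣ h.natDegree
  pairs : ∀ r r' s s' : Roots f h, r ≠ r' → s ≠ s' → below f h r = below f h r' →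
    below f h s = below f h s' → ∃ σ, move f h σ r = s ∧ move f h σ r' = s'
  transposition : ∃ (τ : Gal(AlgebraicClosure k/k)) (r r' : Roots f h), r ≠ r' ∧
    below f h r = below f h r' ∧ move f h τ r = r' ∧ move f h τ r' = r ∧
      ∀ s, s ≠ r → s ≠ r' → move f h τ s = s

end roots

section cohomology

variable {k : Type} [Field k]

/-- `V` is `H²_c(U, L_χ)` with twist one over the algebraic closure of `k`, with the action `ρ` of the
Galois group, `Λ` the lattice given by the sheaf of `O`-modules, and `red` the reduction modulo the
maximal ideal: `Λ` modulo the maximal ideal is the space of functions on the set of the roots of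
`f(h(t))` with values in the residue field `F` and with sum zero on all fibres, with the permutation
action. -/
structure IsLattice (f h : k[X]) {O L F V : Type} [CommRing O] [IsLocalRing O] [Field L]
    [Algebra O L] [Field F] [Algebra O F] [AddCommGroup V] [Module L V] [Module O V]
    (ρ : Representation L Gal(AlgebraicClosure k/k) V) (Λ : Submodule O V)
    (red : Λ →ₗ[O] (Roots f h → F)) : Prop where
  fg : Λ.FG
  span : ∀ v : V, ∃ a : O, a ≠ 0 ∧ a • v ∈ Λ
  stable : ∀ σ, ∀ v ∈ Λ, ρ σ v ∈ Λ
  equivariant : ∀ (σ : Gal(AlgebraicClosure k/k)) (v v' : Λ), (v' : V) = ρ σ v →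
    ∀ r, red v' (move f h σ r) = red v r
  range : ∀ w : Roots f h → F, w ∈ LinearMap.range red ↔ ∀ r, ∑ r' ∈ fibre f h r, w r' = 0
  kernel : ∀ v : Λ, red v = 0 → ∃ a ∈ IsLocalRing.maximalIdeal O, ∃ v' : Λ, v = a • v'

/-- `H` is the second cohomology of the surface with twist one, with the action `ρ` of the Galois
group: the sum of the images of the `V χ`, `χ` the nontrivial characters, and of the span `N` of
classes of curves, on which a subgroup of finite index acts trivially. -/
structure IsSecondCohomology {L X H : Type} [Field L] {V : X → Type}
    [∀ χ, AddCommGroup (V χ)] [∀ χ, Module L (V χ)] [AddCommGroup H] [Module L H]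
    (ρV : ∀ χ, Representation L Gal(AlgebraicClosure k/k) (V χ))
    (ρ : Representation L Gal(AlgebraicClosure k/k) H) (π : ∀ χ, V χ →ₗ[L] H)
    (N : Submodule L H) : Prop where
  equivariant : ∀ χ σ v, π χ (ρV χ σ v) = ρ σ (π χ v)
  stable : ∀ σ, ∀ w ∈ N, ρ σ w ∈ N
  finite : ∃ G : Subgroup Gal(AlgebraicClosure k/k), G.FiniteIndex ∧
    ∀ σ ∈ G, ∀ w ∈ N, ρ σ w = w
  sum : (⨆ χ, LinearMap.range (π χ)) ⊔ N = ⊤

/-- A representation without stable subspaces except zero and the whole space. -/
def IsIrreducible {L V : Type} [Field L] [AddCommGroup V] [Module L V]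
    (ρ : Representation L Gal(AlgebraicClosure k/k) V) : Prop :=
  ∀ W : Submodule L V, (∀ σ, ∀ w ∈ W, ρ σ w ∈ W) → W = ⊥ ∨ W = ⊤

end cohomology

section proof

variable {k : Type} [Field k]

theorem below_move (f h : k[X]) (σ : Gal(AlgebraicClosure k/k)) (r : Roots f h) :
    below f h (move f h σ r) = σ (below f h r) := by
  unfold below move
  exact aeval_algHom_apply (σ : AlgebraicClosure k →ₐ[k] AlgebraicClosure k) r.1 _

theorem move_mul (f h : k[X]) (σ τ : Gal(AlgebraicClosure k/k)) (r : Roots f h) :
    move f h (σ * τ) r = move f h σ (move f h τ r) := rfl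

theorem move_one (f h : k[X]) (r : Roots f h) : move f h 1 r = r := rfl

theorem fibre_card (f h : k[X]) (hsep : (f.comp h).Separable) (r : Roots f h) :
    (fibre f h r).card = h.natDegree := by
  classical
  set i := algebraMap k (AlgebraicClosure k) with hi
  set a := below f h r with ha
  set g : (AlgebraicClosure k)[X] := h.map i - C a with hg
  have hr := r.2
  rw [mem_rootSet'] at hr
  have hfa : (f.map i).eval a = 0 := by
    rw [eval_map_algebraMap]
    have h1 : aeval r.1 (f.comp h) = aeval (aeval r.1 h) f := aeval_comp r.1
    rw [← hr.2, h1]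
    rfl
  have hdvd : g ∣ (f.comp h).map i := by
    obtain ⟨u, hu⟩ := dvd_iff_isRoot.2 hfa
    refine ⟨u.comp (h.map i), ?_⟩
    rw [map_comp, hu, mul_comp, sub_comp, X_comp, C_comp]
  have hgs : g.Separable := (hsep.map (f := i)).of_dvd hdvd
  have hcard := card_rootSet_eq_natDegree (K := AlgebraicClosure k) hgs
    (IsAlgClosed.splits _)
  have hdeg : g.natDegree = h.natDegree := by
    rw [hg, natDegree_sub_C, natDegree_map]
  have hg0 : g ≠ 0 := hgs.ne_zero
  have hev : ∀ y : AlgebraicClosure k, aeval y g = aeval y h - a := by
    intro y
    rw [hg, map_sub, aeval_C, aeval_map_algebraMap]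
    rfl
  rw [← hdeg, ← hcard, ← Finset.card_univ]
  refine Finset.card_bij (fun r' hr' => (⟨r'.1, mem_rootSet.2 ⟨hg0, ?_⟩⟩ :
    g.rootSet (AlgebraicClosure k))) (fun _ _ => Finset.mem_univ _) ?_ ?_
  · rw [hev, sub_eq_zero]
    exact (Finset.mem_filter.1 hr').2
  · intro a₁ _ a₂ _ h12
    exact Subtype.ext (congrArg (fun x : g.rootSet (AlgebraicClosure k) => x.1) h12)
  · intro y _
    have hy := (mem_rootSet.1 y.2).2
    rw [hev, sub_eq_zero] at hy
    have hyR : y.1 ∈ (f.comp h).rootSet (AlgebraicClosure k) := by
      rw [mem_rootSet']
      refine ⟨hr.1, ?_⟩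
      have h1 : aeval y.1 (f.comp h) = aeval (aeval y.1 h) f := aeval_comp y.1
      have h2 : aeval r.1 (f.comp h) = aeval (aeval r.1 h) f := aeval_comp r.1
      rw [h1, hy, ← hr.2, h2]
      rfl
    refine ⟨⟨y.1, hyR⟩, ?_, rfl⟩
    exact Finset.mem_filter.2 ⟨Finset.mem_univ _, hy⟩

theorem irreducible {p : ℕ} {f h : k[X]} (hfh : IsLarge p f h)
    {O L F V : Type} [CommRing O] [IsDomain O] [IsDiscreteValuationRing O] [Field L]
    [Algebra O L] [IsFractionRing O L] [Field F] [CharP F p] [Algebra O F]
    (hOF : Function.Surjective (algebraMap O F)) [AddCommGroup V] [Module L V] [Module O V]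
    [IsScalarTower O L V] {ρ : Representation L Gal(AlgebraicClosure k/k) V}
    {Λ : Submodule O V} {red : Λ →ₗ[O] (Roots f h → F)} (hΛ : IsLattice f h ρ Λ red) :
    IsIrreducible ρ := by
  classical
  have hm : ((h.natDegree : ℕ) : F) ≠ 0 := by
    rw [Ne, CharP.cast_eq_zero_iff F p]
    exact hfh.degree
  obtain ⟨τ, r0, r0', h0, hc0, h1, h2, h3⟩ := hfh.transposition
  set K : Submodule F (Roots f h → F) :=
    { carrier := {w | ∀ r, ∑ r' ∈ fibre f h r, w r' = 0}
      add_mem' := by
        intro a b ha hb r
        have : ∀ r', (a + b) r' = a r' + b r' := fun _ => rfl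
        simp only [this, Finset.sum_add_distrib, ha r, hb r, add_zero]
      zero_mem' := fun r => Finset.sum_eq_zero fun _ _ => rfl
      smul_mem' := by
        intro c a ha r
        have : ∀ r', (c • a) r' = c * a r' := fun _ => rfl
        simp only [this, ← Finset.mul_sum, ha r, mul_zero] } with hK
  have hinv : ∀ (σ : Gal(AlgebraicClosure k/k)) (r : Roots f h),
      move f h σ (move f h σ⁻¹ r) = r := by
    intro σ r
    rw [← move_mul, mul_inv_cancel, move_one]
  intro W hW
  refine TH943.TP.Lat.irreducible_of_lattice hOF ρ Λ hΛ.fg hΛ.span hΛ.stable (move f h) hinv red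
    (fun σ v r => hΛ.equivariant σ v _ rfl r) K (fun w => hΛ.range w) ?_ hΛ.kernel W hW
  intro W' hW' hW'K hne w hw
  exact TH943.TP.Lat.residual (move f h) (move_mul f h) (move_one f h) (below f h) hm
    (fun r => fibre_card f h hfh.separable r) hfh.pairs h0 hc0 h1 h2 h3 W' hW'
    (fun w' hw' r => hW'K hw' r) hne w (fun r => hw r)

end proof

/-- **Semisimplicity of the `p`-adic cohomology of surfaces from permutation lattices.**

Let `p` be a prime, `k` a finitely generated field of characteristic zero which contains a primitive
root of unity of order `p ^ s`, `s ≥ 1`, and `S` any smooth projective surface over `k` birational to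
`v ^ (p ^ s) = (x - h(t)) ^ b f(x) ^ c`, where `f`, `h` are polynomials over `k` of degrees `n`, `m`, and `b`,
`c` positive integers, `b` prime to `p`. Assume `IsLarge`: `f(h(t))` has no multiple roots, `p` does not
divide `m`, and the Galois group of `f(h(t))` over `k` is transitive on the ordered pairs of different
roots with the same image under `h` and contains an element which exchanges two such roots and
fixes all others. This is so if the Galois group is the wreath product of the symmetric groups of
degrees `m` and `n`, so for almost all `f` and `h` of given degrees (by Hilbert's irreducibility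
theorem), but the Galois group of `f` can be any transitive group. The geometric genus of `S` is
not bounded.

Facts. Let `R` and `Q` be the sets of roots of `f(h(t))` and `f`, `U` the open set `(x - h(t)) f(x) ≠ 0` of
the plane over the algebraic closure of `k`, `χ` a nontrivial character of order dividing `p ^ s` with
values in `O`, the ring of integers of a finite extension `L` of the field of `p`-adic numbers, `F` the
residue field, and `ℱ` the corresponding locally constant sheaf of `O`-modules of rank one on `U`.
Modulo the maximal ideal `ℱ` is the constant sheaf `F`. Consider the projection `pr` of `x ≠ h(t)` to the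
line with the coordinate `x`. Its fibres are affine curves, `R¹pr_! F = h_* F`, as a line has only
cohomology with compact supports in degree two; and modulo the maximal ideal `R¹pr_!` of the sheaf
`K` of `(x - h(t)) ^ b` is the kernel of a map from `h_* F` to the part of `R²pr_! K` killed by a uniformizer.
As `p` does not divide `b m`, every fibre has a point with nontrivial local monodromy of the full
order, so that `R²pr_! K` is the constant sheaf `O / (1 - ζ')`, `ζ'` a generator of the image of `χ`, and its
part killed by a uniformizer is constant of rank one; the map is a multiple of the trace, as the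
monodromy group of `h` is transitive. So `R¹pr_! K` modulo the maximal ideal is the
kernel `𝒦` of the trace `h_* F → F`, a direct summand of `h_* F`, and `H^i_c(A¹, 𝒦) = 0` for all `i`. It
follows that `Λ = H²_c(U, ℱ)` is torsion free and that `Λ` modulo the maximal ideal is
`H¹_c(A¹ - Q, 𝒦) = ⊕ 𝒦_α`, sum over `α ∈ Q`, the space of the functions on `R` with sum zero on all fibres of
`R → Q`; and `H³_c(U, ℱ)` is torsion. The twist by the cyclotomic character does not change the
reduction. So `IsLattice` holds for `V_χ = H²_c(U, L_χ)` with twist one.

Let `H` be `H²(S)` with twist one and coefficients in `L`; we may assume that the covering `U'` of `U` is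
open in `S` and that the covering group acts. The part of trivial character of `H` is the cohomology
of a rational surface, and spanned by classes of curves. In the part of nontrivial characters the
sum of the images of the `V_χ` is the orthogonal complement of the span of the boundary curves, and
as `U'` is affine the two spaces span it (Hodge index theorem). So `IsSecondCohomology` holds, `N`
being spanned by classes of curves.

Theorem. The `V_χ` are irreducible (for all finite extensions `L`, so absolutely irreducible), of
dimension `n (m - 1)`, and all stable subspaces of `H` have stable complements.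

Consequence. `H²(S)` with coefficients in the field of `p`-adic numbers is a semisimple representation
of the Galois group of `k`, and also of that of every subfield of finite index over which `S` is
defined. The groups `H¹(S)` and `H³(S)` are zero, as `H¹_c(U, L_χ)` and `H³_c(U, L_χ)` are zero. So Q1 holds
for `S`, all `i` and `ℓ = p`; and so for all products of such surfaces, for the same `p`, with each
other, with curves and with abelian varieties (Faltings; tensor products of semisimple
representations in characteristic zero are semisimple). -/
theorem result (p : ℕ) (k : Type) [Field k] (f h : k[X]) (hfh : IsLarge p f h)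
    (O L F : Type) [CommRing O] [IsDomain O] [IsDiscreteValuationRing O] [Field L] [CharZero L]
    [Algebra O L] [IsFractionRing O L] [Field F] [CharP F p] [Algebra O F]
    (hOF : Function.Surjective (algebraMap O F))
    (X : Type) (V : X → Type) [∀ χ, AddCommGroup (V χ)] [∀ χ, Module L (V χ)]
    [∀ χ, Module O (V χ)] [∀ χ, IsScalarTower O L (V χ)]
    (ρV : ∀ χ, Representation L Gal(AlgebraicClosure k/k) (V χ)) (Λ : ∀ χ, Submodule O (V χ))
    (red : ∀ χ, Λ χ →ₗ[O] (Roots f h → F)) (hΛ : ∀ χ, IsLattice f h (ρV χ) (Λ χ) (red χ))
    (H : Type) [AddCommGroup H] [Module L H] [FiniteDimensional L H]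
    (ρ : Representation L Gal(AlgebraicClosure k/k) H) (π : ∀ χ, V χ →ₗ[L] H)
    (N : Submodule L H) (hH : IsSecondCohomology ρV ρ π N) :
    (∀ χ, IsIrreducible (ρV χ)) ∧
      ∀ W : Submodule L H, (∀ σ, ∀ w ∈ W, ρ σ w ∈ W) →
        ∃ W' : Submodule L H, (∀ σ, ∀ w ∈ W', ρ σ w ∈ W') ∧ IsCompl W W' := by
  have hirr : ∀ χ, IsIrreducible (ρV χ) := fun χ => irreducible hfh hOF (hΛ χ)
  refine ⟨hirr, fun W hW => ?_⟩
  obtain ⟨G, hG, hG0⟩ := hH.finite
  refine TH943.TP.Lat.semi_of_sum ρ (fun o : Option X => o.elim N fun χ => LinearMap.range (π χ))
    ?_ ?_ W hW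
  · rintro (_ | χ)
    · exact TH943.TP.Lat.semi_of_finite ρ N hH.stable G hG hG0
    · exact TH943.TP.Lat.semi_range (ρV χ) ρ (hirr χ) (π χ) (hH.equivariant χ)
  · rw [iSup_option, sup_comm]
    exact hH.sum

end Pool.Agent.Results.MP_b4801b_ag.PermutationLattices
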