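import Pool.Agent.TH125.Sem.Test

/-!
# Semisimplicity from Hodge numbers, Frobenius eigenvalues and local monodromy

Let `X` be a smooth projective variety over a number field with a real place, for instance over
`ℚ`, and `V = H^i (X, ℚ_ℓ)` with the form `w` given by a polarization, `ℓ` any prime. If `U` is a
subrepresentation of `V` of dimension `r` which is isotropic for `w`, then `V / U^⊥` is the dual of
`U`, twisted by `- i`. Hence the Hodge-Tate weights of `V` (given by the Hodge numbers of `X`) contain
the disjoint union of the weights `a_1, …, a_r` of `U` and of the `i - a_1, …, i - a_r`. The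
determinant of `U` is a power of the cyclotomic character, up to a character of finite order, and
as `U` is pure of weight `i` the mean value of the `a_j` is `i / 2`. There is a similar condition
for the eigenvalues of the Frobenius elements. Moreover `U` is killed by the operators
`(g - 1) ^ m` for the elements `g` of the inertia groups at places where their images contain no
isotropic subspace stable under Frobenius, and so `U` is orthogonal to the span of the conjugates
of these images.

Hence `V` is semisimple if each `r ≥ 1`, not larger than `dim V / 2` and the codimension of the
span of those local pieces, is excluded by the Hodge numbers or by a Frobenius element. In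
particular `H^i (X, ℚ_ℓ)` is semisimple for all `ℓ` if the Hodge numbers `h^{p, i - p}` are at most
one and the Betti number is at most seven (`i` odd) or five (`i` even): for example `H^3` of the
Calabi-Yau threefolds with `h^{2, 1} = 1` over `ℚ`.
-/

namespace Pool.Agent.Results.MP_b4801b_ag.WeightsAndPlaces

open Pool.Agent.TH125.Sem

/-- **Semisimplicity from Hodge numbers, Frobenius eigenvalues and local monodromy.** -/
theorem result {K V Γ : Type} [Field K] [AddCommGroup V] [Module K V] [FiniteDimensional K V]
    [Group Γ] (ρ : Representation K Γ V) (χ : Γ →* Kˣ) (w : LinearMap.BilinForm K V)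
    (hw : IsPairing ρ χ w) (i : ℤ) (ht : Submodule K V → Multiset ℤ) {ι : Type} (q : ι → ℕ)
    (fr : ι → Submodule K V → Multiset ℂ) (hT : AreTests ρ w i ht q fr) :
    (∀ P : Set (Place Γ), (∀ p ∈ P, IsAnisotropicAt ρ χ w p.D p.g p.m) →
      (∀ r : ℕ, 1 ≤ r → 2 * r ≤ Module.finrank K V →
        r + Module.finrank K (localSpan ρ P) ≤ Module.finrank K V →
        IsExcluded i (ht ⊤) q (fun j => fr j ⊤) r) → OrthSemisimple ρ w) ∧
      (FewWeights i (ht ⊤) → OrthSemisimple ρ w) :=
  ⟨fun _ hP h => semisimple_tests hw hT hP h, fun h => semisimple_few hw hT h⟩

end Pool.Agent.Results.MP_b4801b_ag.WeightsAndPlaces
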